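import Pool.Agent.Q144.CornerE

set_option autoImplicit false

/-!
# MP_59e64e_co, Q1: nonzero vertices of a convex corner give facets of the anti-blocker

Let `T` be the tangent cone of `C` at a nonzero vertex `X`. The vertex condition says that `T` is
pointed. We show `T ∩ P_n = {0}`; separating `T` from the density matrices gives a positive
definite element in the normal cone, and then the positive elements of the normal cone span `H_n`.
-/

open Matrix Filter Topology
open scoped ComplexOrder

namespace Pool.Agent.Results.MP_59e64e_co.VertexFacet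

/-- Hermitian `n × n` complex matrices, a real vector space -/
abbrev H (n : ℕ) := selfAdjoint (Matrix (Fin n) (Fin n) ℂ)

/-- the pairing `Tr(XY)` (a real number for Hermitian matrices) -/
def pair {n : ℕ} (X Y : H n) : ℝ :=
  ((X : Matrix (Fin n) (Fin n) ℂ) * (Y : Matrix (Fin n) (Fin n) ℂ)).trace.re

/-- positive semidefinite matrices -/
def P (n : ℕ) : Set (H n) := {A | (A : Matrix (Fin n) (Fin n) ℂ).PosSemidef}

/-- convex corners -/
structure IsConvexCorner {n : ℕ} (C : Set (H n)) : Prop where
  nonempty : C.Nonempty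
  isClosed : IsClosed C
  convex : Convex ℝ C
  subset : C ⊆ P n
  hereditary : ∀ A ∈ C, ∀ B ∈ P n, A - B ∈ P n → B ∈ C

/-- the anti-blocker -/
def antiBlocker {n : ℕ} (C : Set (H n)) : Set (H n) :=
  {Z | Z ∈ P n ∧ ∀ X ∈ C, pair X Z ≤ 1}

/-- the hyperplane `{X : Tr(XY) = α}` -/
def hyper {n : ℕ} (Y : H n) (α : ℝ) : Set (H n) := {X | pair X Y = α}

/-- `(Y, α)` defines a supporting hyperplane of `C` at `S ⊆ C` -/
def Supports {n : ℕ} (C S : Set (H n)) (Y : H n) (α : ℝ) : Prop :=
  (∀ X ∈ C, pair X Y ≤ α) ∧ ∀ X ∈ S, pair X Y = α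

/-- vertices: boundary points at which the supporting hyperplanes intersect in the point only -/
def IsVertex {n : ℕ} (C : Set (H n)) (X : H n) : Prop :=
  X ∈ C ∧ X ∈ frontier C ∧
    {W : H n | ∀ (Y : H n) (α : ℝ), Supports C {X} Y α → W ∈ hyper Y α} = {X}

/-- facets: cut out by one supporting hyperplane, lying in the boundary, with affine hull of
dimension `n ^ 2 - 1` -/
def IsFacet {n : ℕ} (C F : Set (H n)) : Prop :=
  F.Nonempty ∧ (∃ (Y : H n) (α : ℝ), Supports C F Y α ∧ F = {X ∈ C | pair X Y = α}) ∧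
    F ⊆ frontier C ∧ Module.finrank ℝ (affineSpan ℝ F).direction = n ^ 2 - 1

open Q144.Corner in
/-- **Q1 holds**: for every `n ≥ 1`, every convex corner `C` and every nonzero vertex `X` of `C`,
the set of `Z` in the anti-blocker with `Tr(XZ) = 1` is a facet of the anti-blocker. -/
theorem result : ∀ n : ℕ, 1 ≤ n → ∀ C : Set (H n), IsConvexCorner C → ∀ X : H n, X ≠ 0 →
    IsVertex C X → IsFacet (antiBlocker C) {Z ∈ antiBlocker C | pair X Z = 1} := by
  intro n hn C hC0 X hX0 hvert
  obtain ⟨hXC, -, hinter⟩ := hvert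
  have hC : IsCorner C :=
    ⟨hC0.nonempty, hC0.isClosed, hC0.convex, hC0.subset, hC0.hereditary⟩
  have hpair : ∀ A B : H n, pair A B = tr A B := fun _ _ => rfl
  have hXp : psd X := hC.psd X hXC
  -- the vertex condition in terms of directions
  have hvx : ∀ D : H n, (∀ Y : H n, (∀ W ∈ C, tr W Y ≤ tr X Y) → tr D Y = 0) → D = 0 := by
    intro D hD
    have h1 : X + D ∈ {W : H n | ∀ (Y : H n) (α : ℝ), Supports C {X} Y α → W ∈ hyper Y α} := by
      intro Y α hs
      have h2 : tr X Y = α := hs.2 X rfl
      have h3 : tr D Y = 0 := hD Y (fun W hW => by rw [h2]; exact hs.1 W hW)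
      show tr (X + D) Y = α
      rw [tr_add_left, h2, h3, add_zero]
    rw [hinter] at h1
    have h4 : X + D = X := h1
    simpa using h4
  have hTle : ∀ Y : H n, (∀ W ∈ C, tr W Y ≤ tr X Y) → ∀ D ∈ T C X, tr D Y ≤ 0 := by
    intro Y hY D hD
    have hcl : IsClosed {D : H n | tr D Y ≤ 0} := isClosed_le (cont_tr Y) continuous_const
    have hsub : S C X ⊆ {D : H n | tr D Y ≤ 0} := by
      rintro _ ⟨c, hc, W, hW, rfl⟩
      show tr (c • (W - X)) Y ≤ 0
      rw [tr_smul_left, tr_sub_left]
      exact mul_nonpos_of_nonneg_of_nonpos hc (by linarith [hY W hW])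
    exact closure_minimal hsub hcl hD
  have hpt : ∀ D, D ∈ T C X → - D ∈ T C X → D = 0 := by
    intro D h1 h2
    apply hvx
    intro Y hY
    have h3 := hTle Y hY D h1
    have h4 := hTle Y hY (-D) h2
    rw [tr_neg_left] at h4
    linarith
  have hT0 : (0 : H n) ∈ T C X := by
    have := T_of_mem (X := X) hXC
    rwa [sub_self] at this
  obtain ⟨Z, δ, hδ, hZT, hZd⟩ := exists_sep
    (T := T C X) (by
      intro D hD D' hD' a b ha hb _
      exact T_add hC.convex (T_smul hD ha) (T_smul hD' hb))
    (T_closed C X) hT0 (fun D hD c hc => T_smul hD hc) (inter_zero hC hXC hX0 hpt)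
  have hZN : ∀ W ∈ C, tr W Z ≤ tr X Z := by
    intro W hW
    have := hZT _ (T_of_mem (X := X) hW)
    rw [tr_sub_left] at this
    linarith
  -- normalisation of positive matrices
  have hpsd_zero : ∀ A : H n, psd A → tr A (idH n) = 0 → A = 0 := by
    intro A hA h0
    apply Subtype.ext
    ext i j
    have := entry_bound hA i j
    rw [h0] at this
    exact norm_le_zero_iff.1 this
  have hZle : ∀ A : H n, psd A → δ * tr A (idH n) ≤ tr A Z := by
    intro A hA
    have hid : psd (idH n) := Matrix.PosSemidef.one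
    have h0 : 0 ≤ tr A (idH n) := tr_nonneg hA hid
    rcases eq_or_lt_of_le h0 with h | h
    · have hA0 := hpsd_zero A hA h.symm
      rw [hA0]
      have e1 : tr (0 : H n) (idH n) = 0 := (trL (idH n)).map_zero
      have e2 : tr (0 : H n) Z = 0 := (trL Z).map_zero
      rw [e1, e2, mul_zero]
    · have h1 : (1 / tr A (idH n)) • A ∈ dens n := by
        refine ⟨?_, ?_⟩
        · exact hA.smul (show (0 : ℝ) ≤ 1 / tr A (idH n) by positivity)
        · rw [tr_smul_left, one_div_mul_cancel h.ne']
      have h2 := hZd _ h1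
      rw [tr_smul_left] at h2
      have h3 := mul_le_mul_of_nonneg_right h2 h0
      have h4 : 1 / tr A (idH n) * tr A Z * tr A (idH n) = tr A Z := by
        field_simp
      rw [h4] at h3
      exact h3
  have hZp : psd Z := by
    rw [psd_iff]
    intro x
    have h1 := hZle _ (rk_psd x)
    have hid : psd (idH n) := Matrix.PosSemidef.one
    have h2 : 0 ≤ tr (rk x) (idH n) := tr_nonneg (rk_psd x) hid
    have h3 : 0 ≤ δ * tr (rk x) (idH n) := mul_nonneg hδ.le h2
    linarith
  have hXZ : 0 < tr X Z := by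
    have h1 := hZle X hXp
    have hid : psd (idH n) := Matrix.PosSemidef.one
    have h2 : 0 ≤ tr X (idH n) := tr_nonneg hXp hid
    have h3 : tr X (idH n) ≠ 0 := fun h => hX0 (hpsd_zero X hXp h)
    have h4 : 0 < tr X (idH n) := lt_of_le_of_ne h2 (Ne.symm h3)
    have h5 : 0 < δ * tr X (idH n) := mul_pos hδ h4
    linarith
  have h0C : (0 : H n) ∈ C := by
    obtain ⟨A, hA⟩ := hC.nonempty
    exact hC.hered A hA 0 Matrix.PosSemidef.zero (by rw [sub_zero]; exact hC.psd A hA)
  set F : Set (H n) := {Z ∈ antiBlocker C | pair X Z = 1} with hF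
  have hFiff : ∀ A : H n, A ∈ F ↔ psd A ∧ (∀ W ∈ C, tr W A ≤ 1) ∧ tr X A = 1 := by
    intro A
    constructor
    · rintro ⟨⟨h1, h2⟩, h3⟩
      exact ⟨h1, h2, h3⟩
    · rintro ⟨h1, h2, h3⟩
      exact ⟨⟨h1, h2⟩, h3⟩
  -- a point of `F`
  set Z1 : H n := (1 / tr X Z) • Z with hZ1
  have hZ1F : Z1 ∈ F := by
    rw [hFiff]
    refine ⟨hZp.smul (show (0 : ℝ) ≤ 1 / tr X Z by positivity), ?_, ?_⟩
    · intro W hW
      rw [hZ1, tr_smul_right]
      calc 1 / tr X Z * tr W Z ≤ 1 / tr X Z * tr X Z :=
            mul_le_mul_of_nonneg_left (hZN W hW) (by positivity)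
        _ = 1 := one_div_mul_cancel hXZ.ne'
    · rw [hZ1, tr_smul_right, one_div_mul_cancel hXZ.ne']
  -- a functional vanishing on `F` vanishes
  have hker : ∀ D : H n, (∀ A ∈ F, tr D A = 0) → D = 0 := by
    intro D hD
    have hK : ∀ A : H n, psd A → (∀ W ∈ C, tr W A ≤ tr X A) → tr D A = 0 := by
      intro A hA hAN
      have hc0 : 0 ≤ tr X A := by
        have := hAN 0 h0C
        have e2 : tr (0 : H n) A = 0 := (trL A).map_zero
        rwa [e2] at this
      rcases eq_or_lt_of_le hc0 with h | h
      · have h1 : A + Z1 ∈ F := by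
          rw [hFiff]
          have hz := (hFiff Z1).1 hZ1F
          refine ⟨hA.add hz.1, ?_, ?_⟩
          · intro W hW
            rw [tr_add_right]
            have h2 := hAN W hW
            have h3 := hz.2.1 W hW
            linarith
          · rw [tr_add_right, ← h, hz.2.2, zero_add]
        have h2 := hD _ h1
        rw [tr_add_right, hD _ hZ1F, add_zero] at h2
        exact h2
      · have h1 : (1 / tr X A) • A ∈ F := by
          rw [hFiff]
          refine ⟨hA.smul (show (0 : ℝ) ≤ 1 / tr X A by positivity), ?_, ?_⟩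
          · intro W hW
            rw [tr_smul_right]
            calc 1 / tr X A * tr W A ≤ 1 / tr X A * tr X A :=
                  mul_le_mul_of_nonneg_left (hAN W hW) (by positivity)
              _ = 1 := one_div_mul_cancel h.ne'
          · rw [tr_smul_right, one_div_mul_cancel h.ne']
        have h2 := hD _ h1
        rw [tr_smul_right] at h2
        rcases mul_eq_zero.1 h2 with h3 | h3
        · exact absurd h3 (by positivity)
        · exact h3
    have hDZ : tr D Z = 0 := hK Z hZp hZN
    apply hvx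
    intro Y hY
    -- make `Y` positive by adding a multiple of `Z`
    obtain ⟨c, hc⟩ : ∃ c : ℝ, ∀ Q ∈ dens n, - c ≤ tr Q Y := by
      obtain ⟨b, hb⟩ := (dens_compact (n := n)).bddBelow_image (cont_tr Y).continuousOn
      refine ⟨-b, fun Q hQ => ?_⟩
      rw [neg_neg]
      exact hb ⟨Q, hQ, rfl⟩
    set l : ℝ := |c| / δ with hl
    have hl0 : 0 ≤ l := by positivity
    have hYd : ∀ Q ∈ dens n, 0 ≤ tr Q (Y + l • Z) := by
      intro Q hQ
      rw [tr_add_right, tr_smul_right]
      have h1 := hc Q hQ
      have h2 := hZd Q hQ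
      have h3 : l * δ ≤ l * tr Q Z := mul_le_mul_of_nonneg_left h2 hl0
      have h4 : l * δ = |c| := by rw [hl]; field_simp
      have h5 := le_abs_self c
      linarith
    have hYp : psd (Y + l • Z) := by
      rw [psd_iff]
      intro x
      have hid : psd (idH n) := Matrix.PosSemidef.one
      have h2 : 0 ≤ tr (rk x) (idH n) := tr_nonneg (rk_psd x) hid
      rcases eq_or_lt_of_le h2 with h | h
      · have h3 := hpsd_zero _ (rk_psd x) h.symm
        rw [h3]
        have e2 : tr (0 : H n) (Y + l • Z) = 0 := (trL _).map_zero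
        rw [e2]
      · have h1 : (1 / tr (rk x) (idH n)) • rk x ∈ dens n := by
          refine ⟨(rk_psd x).smul (show (0 : ℝ) ≤ 1 / tr (rk x) (idH n) by positivity), ?_⟩
          rw [tr_smul_left, one_div_mul_cancel h.ne']
        have h3 := hYd _ h1
        rw [tr_smul_left] at h3
        have h4 : 0 < 1 / tr (rk x) (idH n) := by positivity
        exact nonneg_of_mul_nonneg_right h3 h4
    have h1 := hK (Y + l • Z) hYp (by
      intro W hW
      rw [tr_add_right, tr_smul_right, tr_add_right, tr_smul_right]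
      have h2 := hY W hW
      have h3 := mul_le_mul_of_nonneg_left (hZN W hW) hl0
      linarith)
    rw [tr_add_right, tr_smul_right, hDZ, mul_zero, add_zero] at h1
    exact h1
  refine ⟨⟨Z1, hZ1F⟩, ⟨X, 1, ⟨?_, ?_⟩, ?_⟩, ?_, ?_⟩
  · intro A hA
    rw [hpair, tr_comm]
    exact hA.2 X hXC
  · intro A hA
    rw [hpair, tr_comm]
    exact hA.2
  · ext A
    constructor
    · rintro ⟨h1, h2⟩
      exact ⟨h1, by rw [hpair, tr_comm]; exact h2⟩
    · rintro ⟨h1, h2⟩
      exact ⟨h1, by rw [hpair, tr_comm]; exact h2⟩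
  · intro A hA
    have hA1 : A ∈ antiBlocker C := hA.1
    have hA2 : tr X A = 1 := hA.2
    refine ⟨subset_closure hA1, fun hint => ?_⟩
    have hcont : Continuous (fun t : ℝ => A + t • X) := by fun_prop
    have hev : ∀ᶠ t in 𝓝 (0 : ℝ), A + t • X ∈ antiBlocker C := by
      have h1 : (fun t : ℝ => A + t • X) 0 ∈ interior (antiBlocker C) := by
        simpa using hint
      exact (hcont.continuousAt.eventually (isOpen_interior.mem_nhds h1)).mono
        fun t ht => interior_subset ht
    have hev2 : ∀ᶠ t in 𝓝[>] (0 : ℝ), A + t • X ∈ antiBlocker C ∧ 0 < t :=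
      (hev.filter_mono nhdsWithin_le_nhds).and self_mem_nhdsWithin
    obtain ⟨t, ht1, ht2⟩ := hev2.exists
    have h3 : tr X (A + t • X) ≤ 1 := ht1.2 X hXC
    rw [tr_add_right, tr_smul_right, hA2] at h3
    have h4 : 0 ≤ tr X X := tr_nonneg hXp hXp
    have h5 : tr X X ≠ 0 := fun h => hX0 (tr_self_eq_zero h)
    have h6 : 0 < tr X X := lt_of_le_of_ne h4 (Ne.symm h5)
    have h7 : 0 < t * tr X X := mul_pos ht2 h6
    linarith
  · rw [direction_affineSpan]
    set V := vectorSpan ℝ F with hV
    -- upper bound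
    have hVle : V ≤ LinearMap.ker (trL X) := by
      rw [hV, vectorSpan_def, Submodule.span_le]
      rintro _ ⟨A, hA, B, hB, rfl⟩
      show tr (A - B) X = 0
      rw [tr_sub_left, tr_comm A, tr_comm B, ((hFiff A).1 hA).2.2, ((hFiff B).1 hB).2.2, sub_self]
    have hspan : Submodule.span ℝ F = ⊤ := by
      by_contra hne
      obtain ⟨f, hf0, hf⟩ := Submodule.exists_le_ker_of_lt_top _ (lt_top_iff_ne_top.2 hne)
      obtain ⟨D, hD⟩ := riesz f
      apply hf0
      have hD0 : D = 0 := by
        apply hker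
        intro A hA
        rw [tr_comm, ← hD A]
        exact hf (Submodule.subset_span hA)
      ext A
      rw [hD A, hD0, tr_comm]
      exact (trL A).map_zero
    have hle : Submodule.span ℝ F ≤ V ⊔ Submodule.span ℝ {Z1} := by
      rw [Submodule.span_le]
      intro A hA
      have h1 : A - Z1 ∈ V := by
        rw [hV]
        exact vsub_mem_vectorSpan ℝ hA hZ1F
      have h2 : A = (A - Z1) + Z1 := by abel
      rw [h2]
      exact Submodule.add_mem_sup h1 (Submodule.mem_span_singleton_self Z1)
    have h1 : n ^ 2 ≤ Module.finrank ℝ V + 1 := by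
      have h2 := Submodule.finrank_mono hle
      rw [hspan, finrank_top, finrank_H] at h2
      have h3 := Submodule.finrank_add_le_finrank_add_finrank V (Submodule.span ℝ {Z1})
      have h4 : Module.finrank ℝ (Submodule.span ℝ {Z1}) ≤ 1 := by
        have := finrank_span_le_card (R := ℝ) ({Z1} : Set (H n))
        simpa using this
      omega
    have h2 : Module.finrank ℝ (LinearMap.ker (trL X)) + 1 ≤ n ^ 2 := by
      have h3 := LinearMap.finrank_range_add_finrank_ker (trL X)
      have h4 : 0 < Module.finrank ℝ (LinearMap.range (trL X)) := by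
        rw [Module.finrank_pos_iff]
        refine ⟨⟨⟨trL X X, LinearMap.mem_range_self _ _⟩, 0, ?_⟩⟩
        intro h5
        have h6 : trL X X = 0 := congrArg Subtype.val h5
        exact hX0 (tr_self_eq_zero h6)
      rw [finrank_H] at h3
      omega
    have h3 : Module.finrank ℝ V ≤ Module.finrank ℝ (LinearMap.ker (trL X)) :=
      Submodule.finrank_mono hVle
    have h4 : Module.finrank ℝ V + 1 ≤ n ^ 2 := le_trans (Nat.succ_le_succ h3) h2
    have h5 : Module.finrank ℝ V = n ^ 2 - 1 := by omega
    exact h5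

end Pool.Agent.Results.MP_59e64e_co.VertexFacet
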